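import Pool.Agent.Q297.Lpr4

/-!
# Local propagation for hyponormal matrix-valued weighted shifts

Let `W` be the matrix-valued weighted shift with positive definite `p × p` weights `A n` on
`ℓ²(ℂ^p)`. If `W` is cubically hyponormal, and even if only `W + λ W²` is hyponormal for every real
`λ`, then `A k x = A (k+1) x` for one `k ≥ 1` implies `A n x = A 1 x` for all `n ≥ 1`.

Proof: for an eigenvector `x` of `A k` one tests hyponormality on an explicit vector with five
nonzero entries; the two lowest orders in `λ` cancel and the next one is minus a sum of two squared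
norms. The kernel of `A k - A (k+1)` is invariant under `A k`, so it is spanned by eigenvectors.
-/

set_option autoImplicit false

open scoped ComplexOrder

namespace Pool.Agent.Results.MP_c6f870_an.LocalPropagation

/-- the Hilbert space `ℂ^p` -/
noncomputable abbrev Vec (p : ℕ) := EuclideanSpace ℂ (Fin p)

/-- the Hilbert space `ℓ²(ℂ^p)` of square summable sequences in `ℂ^p` -/
def Ell2 (p : ℕ) : Type := lp (fun _ : ℕ => Vec p) 2

noncomputable instance ell2Norm (p : ℕ) : NormedAddCommGroup (Ell2 p) :=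
  lp.normedAddCommGroup (E := fun _ : ℕ => Vec p) (p := 2)

noncomputable instance ell2Inner (p : ℕ) : InnerProductSpace ℂ (Ell2 p) :=
  lp.instInnerProductSpace (G := fun _ : ℕ => Vec p)

instance ell2Complete (p : ℕ) : CompleteSpace (Ell2 p) :=
  (inferInstance : CompleteSpace (lp (fun _ : ℕ => Vec p) 2))

/-- the entry `x n` of a sequence `x` in `ℓ²(ℂ^p)` -/
def entry {p : ℕ} (x : Ell2 p) (n : ℕ) : Vec p := x.1 n

/-- the product `A v` of a matrix and a vector -/
noncomputable def act {p : ℕ} (A : Matrix (Fin p) (Fin p) ℂ) (v : Vec p) : Vec p :=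
  WithLp.toLp 2 (A.mulVec v.ofLp)

/-- `W` is the matrix-valued weighted shift `(x₀, x₁, …) ↦ (0, A₀ x₀, A₁ x₁, …)` on `ℓ²(ℂ^p)`
(such a bounded operator exists if and only if the norms of the `A n` are bounded). -/
def IsWeightedShift {p : ℕ} (A : ℕ → Matrix (Fin p) (Fin p) ℂ) (W : Ell2 p →L[ℂ] Ell2 p) : Prop :=
  ∀ x : Ell2 p, entry (W x) 0 = 0 ∧ ∀ n, entry (W x) (n + 1) = act (A n) (entry x n)

section
variable {H : Type} [NormedAddCommGroup H] [InnerProductSpace ℂ H]

/-- `S` is the adjoint of `T` -/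
def IsAdjointOf (S T : H →L[ℂ] H) : Prop := ∀ x y : H, inner ℂ (S x) y = inner ℂ x (T y)

/-- `T* T - T T* ≥ 0`, that is `‖T* x‖ ≤ ‖T x‖` for all `x` -/
def Hyponormal (T : H →L[ℂ] H) : Prop := ∃ S, IsAdjointOf S T ∧ ∀ x, ‖S x‖ ≤ ‖T x‖

/-- `T + λ T² + μ T³` is hyponormal for all complex `λ`, `μ`. -/
def CubicallyHyponormal (T : H →L[ℂ] H) : Prop :=
  ∀ lam mu : ℂ, Hyponormal (T + lam • (T ∘L T) + mu • (T ∘L T ∘L T))

/-- `T + λ T²` is hyponormal for all real `λ`. -/
def RealQuadraticallyHyponormal (T : H →L[ℂ] H) : Prop :=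
  ∀ lam : ℝ, Hyponormal (T + (lam : ℂ) • (T ∘L T))

end

/-- If `A k x = A (k+1) x` for a vector `x` and some `k ≥ 1` then `A n x = A 1 x` for all
`n ≥ 1`. -/
def LocallyPropagates {p : ℕ} (A : ℕ → Matrix (Fin p) (Fin p) ℂ) : Prop :=
  ∀ (x : Vec p) (k : ℕ), 1 ≤ k → act (A k) x = act (A (k + 1)) x →
    ∀ n, 1 ≤ n → act (A n) x = act (A 1) x

lemma Hyponormal.hypo {H : Type} [NormedAddCommGroup H] [InnerProductSpace ℂ H] [CompleteSpace H]
    {T : H →L[ℂ] H} (h : Hyponormal T) : Pool.Agent.Q297.Lpr.Hypo T := by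
  obtain ⟨S, hS, hn⟩ := h
  have hST : S = ContinuousLinearMap.adjoint T := (ContinuousLinearMap.eq_adjoint_iff S T).2 hS
  subst hST
  refine ⟨?_, fun x => ?_⟩
  · intro x y
    have e : ∀ z, (ContinuousLinearMap.adjoint T ∘L T - T ∘L ContinuousLinearMap.adjoint T) z =
        ContinuousLinearMap.adjoint T (T z) - T (ContinuousLinearMap.adjoint T z) := fun z => rfl
    change inner ℂ ((ContinuousLinearMap.adjoint T ∘L T - T ∘L ContinuousLinearMap.adjoint T) x) y =
      inner ℂ x ((ContinuousLinearMap.adjoint T ∘L T - T ∘L ContinuousLinearMap.adjoint T) y)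
    rw [e, e, inner_sub_left, inner_sub_right, ContinuousLinearMap.adjoint_inner_left,
      ContinuousLinearMap.adjoint_inner_right]
    congr 1
    exact (ContinuousLinearMap.adjoint_inner_right T _ y).symm.trans
      (ContinuousLinearMap.adjoint_inner_left T _ x)
  · have e : (ContinuousLinearMap.adjoint T ∘L T - T ∘L ContinuousLinearMap.adjoint T) x =
        ContinuousLinearMap.adjoint T (T x) - T (ContinuousLinearMap.adjoint T x) := rfl
    have e1 : inner ℂ (ContinuousLinearMap.adjoint T (T x)) x = inner ℂ (T x) (T x) :=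
      ContinuousLinearMap.adjoint_inner_left T x (T x)
    have e2 : inner ℂ (T (ContinuousLinearMap.adjoint T x)) x =
        inner ℂ (ContinuousLinearMap.adjoint T x) (ContinuousLinearMap.adjoint T x) :=
      (ContinuousLinearMap.adjoint_inner_right T _ x).symm
    have h1 : 0 ≤ RCLike.re (inner ℂ ((ContinuousLinearMap.adjoint T ∘L T -
        T ∘L ContinuousLinearMap.adjoint T) x) x) := by
      rw [e, inner_sub_left, e1, e2, map_sub, inner_self_eq_norm_sq, inner_self_eq_norm_sq]
      have h2 := hn x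
      have h3 : ‖ContinuousLinearMap.adjoint T x‖ ^ 2 ≤ ‖T x‖ ^ 2 :=
        pow_le_pow_left₀ (norm_nonneg _) h2 2
      linarith
    exact h1

/-- **Backward and forward local propagation.** The answer to Q1 is yes, and hyponormality of
`W + λ W²` for the real numbers `λ` is enough. -/
theorem result (p : ℕ) (A : ℕ → Matrix (Fin p) (Fin p) ℂ) (hA : ∀ n, (A n).PosDef)
    (W : Ell2 p →L[ℂ] Ell2 p) (hW : IsWeightedShift A W) :
    (CubicallyHyponormal W → LocallyPropagates A) ∧
    (RealQuadraticallyHyponormal W → LocallyPropagates A) := by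
  have hB : ∀ n, Pool.Agent.Q297.Lpr.SPos (Matrix.toEuclideanLin (A n)) := by
    intro n
    refine ⟨Matrix.isSymmetric_toEuclideanLin_iff.2 (hA n).1, fun x hx => ?_⟩
    have hx' : x.ofLp ≠ 0 := by
      intro h0
      apply hx
      ext i
      exact congrFun h0 i
    have h1 := (hA n).re_dotProduct_pos hx'
    rw [inner_re_symm, EuclideanSpace.inner_eq_star_dotProduct, dotProduct_comm]
    exact h1
  have main : RealQuadraticallyHyponormal W → LocallyPropagates A := by
    intro hy x k hk hx n hn
    exact Pool.Agent.Q297.Lpr.propagation hB (W := W) hW (fun lam => (hy lam).hypo) hk hx n hn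
  refine ⟨fun hc => main fun lam => ?_, main⟩
  have h1 := hc (lam : ℂ) 0
  rw [zero_smul, add_zero] at h1
  exact h1

end Pool.Agent.Results.MP_c6f870_an.LocalPropagation
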